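import Pool.Agent.H.MP_c40ba2_an.D

set_option autoImplicit false

namespace Pool.Agent.H.MP_af15e5_an
open Metric Set Filter Topology Pool.Agent.H.MP_c40ba2_an

lemma hopf {G : ℂ → ℂ} {r : ℝ} (hr : 0 < r) (hG : DifferentiableOn ℂ G (ball 0 r))
    (h0 : ∀ z ∈ ball (0:ℂ) r, 0 ≤ (G z).re) (z : ℂ) (hz : z ∈ ball (0:ℂ) r) :
    (1 - ‖z‖ / r) * (G 0).re / 2 ≤ (G z).re := by
  have ha := h0 0 (mem_ball_self hr)
  have hs0 : 0 ≤ ‖z‖ / r := by positivity
  have hs1 : ‖z‖ / r ≤ 1 := (div_le_one hr).mpr (mem_ball_zero_iff.mp hz).le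
  rcases ha.eq_or_lt with h | h
  · rw [← h]; simpa using h0 z hz
  have hne : ∀ w ∈ ball (0:ℂ) r, G w + (starRingEnd ℂ) (G 0) ≠ 0 := fun w hw e => by
    have := congrArg Complex.re e
    simp only [Complex.add_re, Complex.conj_re, Complex.zero_re] at this
    linarith [h0 w hw]
  have key := Complex.dist_le_div_mul_dist_of_mapsTo_ball
    (f := fun w => (G w - G 0) / (G w + (starRingEnd ℂ) (G 0))) (c := 0) (R₁ := r) (R₂ := 1)
    ((hG.sub_const _).div (hG.add_const _) hne) (fun w hw => by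
      simp only [sub_self, zero_div, mem_closedBall_zero_iff, norm_div]
      rw [div_le_one (norm_pos_iff.mpr (hne w hw))]
      refine le_of_pow_le_pow_left₀ (n := 2) (by norm_num) (norm_nonneg _) ?_
      rw [Complex.sq_norm, Complex.sq_norm, Complex.normSq_apply, Complex.normSq_apply]
      simp only [Complex.sub_re, Complex.sub_im, Complex.add_re, Complex.add_im, Complex.conj_re,
        Complex.conj_im]
      nlinarith [h0 w hw]) hz
  simp only [sub_self, zero_div, dist_zero_right, norm_div] at key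
  rw [div_le_iff₀ (norm_pos_iff.mpr (hne z hz)), one_div_mul_eq_div] at key
  set s := ‖z‖ / r
  have k2 := pow_le_pow_left₀ (norm_nonneg _) key 2
  rw [mul_pow, Complex.sq_norm, Complex.sq_norm, Complex.normSq_apply, Complex.normSq_apply] at k2
  simp only [Complex.sub_re, Complex.sub_im, Complex.add_re, Complex.add_im, Complex.conj_re,
    Complex.conj_im] at k2
  have hz0 := h0 z hz
  have k3 : ((G 0).re - (G z).re) ^ 2 ≤ (s * ((G z).re + (G 0).re)) ^ 2 := by
    have : s ^ 2 ≤ 1 := by nlinarith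
    nlinarith [mul_le_mul_of_nonneg_right this (sq_nonneg ((G z).im - (G 0).im))]
  have k4 := (abs_le_of_sq_le_sq' k3 (by positivity)).2
  nlinarith

lemma julia {G : ℂ → ℂ} {r : ℝ} (hr : 0 < r) (hG : DifferentiableOn ℂ G (ball 0 r))
    (hb : ∀ z : ℂ, ‖z‖ ≤ r → ‖G z - 1‖ ≤ 1) {p G' : ℂ} (hp : ‖p‖ = r) (h1 : G p = 0)
    (hd : HasDerivAt G G' p) : ∃ l : ℝ, 0 ≤ l ∧ p * G' = -l ∧ (l = 0 → G 0 = 0) := by
  have hre : ∀ z : ℂ, ‖z‖ ≤ r → 0 ≤ (G z).re := fun z hz => by
    have := (Complex.abs_re_le_norm (G z - 1)).trans (hb z hz)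
    simp only [Complex.sub_re, Complex.one_re] at this
    linarith [(abs_le.mp this).1]
  have him : (p * G').im = 0 := by
    have a : HasDerivAt (fun u : ℂ => p * Complex.exp (u * Complex.I)) (p * Complex.I) ((0:ℝ):ℂ) := by
      simpa using (((hasDerivAt_id ((0:ℝ):ℂ)).mul_const Complex.I).cexp).const_mul p
    have b := (HasDerivAt.comp_of_eq ((0:ℝ):ℂ) hd a (by simp)).real_of_complex
    have c : IsLocalMin (fun x : ℝ => ((G ∘ fun u : ℂ => p * Complex.exp (u * Complex.I)) x).re) 0 :=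
      Eventually.of_forall fun x => by
        simpa [h1] using hre (p * Complex.exp (x * Complex.I)) (by simp [hp])
    have := c.hasDerivAt_eq_zero b
    simp only [Complex.mul_re, Complex.mul_im, Complex.I_re, Complex.I_im] at this ⊢
    linarith
  have hle : (G 0).re / 2 ≤ -(p * G').re := by
    have a : HasDerivAt (fun u : ℂ => u * p) p ((1:ℝ):ℂ) := by
      simpa using (hasDerivAt_id ((1:ℝ):ℂ)).mul_const p
    have b := (HasDerivAt.comp_of_eq ((1:ℝ):ℂ) hd a (by simp)).real_of_complex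
    have c := b.tendsto_slope.mono_left (nhdsLT_le_nhdsNE (1:ℝ))
    have d := le_of_tendsto c (b := -((G 0).re / 2)) (by
      filter_upwards [Ioo_mem_nhdsLT (zero_lt_one (α := ℝ))] with s hs
      have hn : ‖(s:ℂ) * p‖ = s * r := by
        rw [norm_mul, Complex.norm_real, Real.norm_of_nonneg hs.1.le, hp]
      have := hopf hr hG (fun z hz => hre z (mem_ball_zero_iff.mp hz).le) (s * p)
        (by rw [mem_ball_zero_iff, hn]; nlinarith [hs.2])
      rw [hn, mul_div_cancel_right₀ _ hr.ne'] at this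
      rw [slope_def_field, div_le_iff_of_neg (by linarith [hs.2])]
      simp only [Function.comp, Complex.ofReal_one, one_mul, h1, Complex.zero_re]
      linarith)
    rw [mul_comm]
    linarith
  have h00 := hre 0 (by simpa using hr.le)
  refine ⟨-(p * G').re, by linarith, Complex.ext (by simp) (by simpa using him), fun h => ?_⟩
  have e : (G 0).re = 0 := by linarith
  have := pow_le_pow_left₀ (norm_nonneg _) (hb 0 (by simpa using hr.le)) 2
  rw [Complex.sq_norm, Complex.normSq_apply] at this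
  simp only [Complex.sub_re, Complex.sub_im, Complex.one_re, Complex.one_im, e] at this
  exact Complex.ext e (by simpa using (by nlinarith : (G 0).im * (G 0).im = 0))

lemma hur {g : ℝ → ℂ → ℂ} {r : ℝ} (hr : r ≤ 1)
    (hc : ∀ z ∈ ball (0:ℂ) 1, ContinuousAt (fun q : ℝ × ℂ => g q.1 q.2) (1, z))
    (hd : ∀ τ ∈ Ioc (0:ℝ) 1, DifferentiableOn ℂ (g τ) (ball 0 1))
    (h0 : ∀ τ ∈ Ioo (0:ℝ) 1, ∀ s ∈ ball (0:ℂ) r, g τ s ≠ 0) {c : ℂ} (hcr : c ∈ ball (0:ℂ) r)
    (hz : g 1 c = 0) : ∀ s ∈ ball (0:ℂ) 1, g 1 s = 0 := by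
  have hs : ball (0:ℂ) r ⊆ ball 0 1 := ball_subset_ball hr
  have an := (hd 1 ⟨one_pos, le_rfl⟩).analyticOnNhd isOpen_ball
  rcases (an c (hs hcr)).eventually_eq_zero_or_eventually_ne_zero with h | h
  · exact an.eqOn_zero_of_preconnected_of_eventuallyEq_zero (convex_ball _ _).isPreconnected
      (hs hcr) h
  exfalso
  rw [eventually_nhdsWithin_iff] at h
  obtain ⟨δ, hδ, hb⟩ := nhds_basis_closedBall.eventually_iff.mp
    (h.and (isOpen_ball.mem_nhds hcr))
  have hsp : ∀ z ∈ sphere c δ, z ∈ ball (0:ℂ) 1 := fun z hz =>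
    hs (hb (sphere_subset_closedBall hz)).2
  obtain ⟨z0, hz0, hmin⟩ := (isCompact_sphere c δ).exists_isMinOn (f := fun z => ‖g 1 z‖)
    (NormedSpace.sphere_nonempty.mpr hδ.le) (an.continuousOn.mono hsp).norm
  have hm : 0 < ‖g 1 z0‖ := norm_pos_iff.mpr ((hb (sphere_subset_closedBall hz0)).1 (by
    rintro rfl
    simp at hz0
    linarith))
  have e1 : ∀ᶠ τ : ℝ in 𝓝 1, ∀ z ∈ sphere c δ, ‖g 1 z0‖ / 2 < ‖g τ z‖ := by
    refine (isCompact_sphere c δ).eventually_forall_of_forall_eventually fun z hz => ?_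
    exact (hc z (hsp z hz)).norm.eventually (lt_mem_nhds (by
      have := hmin hz
      simp only [mem_setOf_eq] at this
      linarith))
  have e2 : ∀ᶠ τ : ℝ in 𝓝 1, ‖g τ c‖ < ‖g 1 z0‖ / 2 := by
    have := ((hc c (hs hcr)).comp_of_eq (f := fun τ : ℝ => (τ, c)) (by fun_prop) rfl).norm
    exact this.eventually (gt_mem_nhds (by simpa [hz] using hm))
  obtain ⟨τ, ⟨a1, a2⟩, a3⟩ := (((e1.and e2).filter_mono (nhdsWithin_le_nhds (s := Iio 1))).and
    (Ioo_mem_nhdsLT (zero_lt_one (α := ℝ)))).exists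
  have hm2 : ∀ z ∈ closedBall (0:ℂ) δ, c + z ∈ closedBall c δ := fun z hz => by simpa using hz
  have := minmod (g := fun z => g τ (c + z)) hδ (half_pos hm)
    ((hd τ ⟨a3.1, a3.2.le⟩).comp (by fun_prop) fun z hz => hs (hb (hm2 z hz)).2)
    (fun z hz => h0 τ a3 _ (hb (hm2 z hz)).2)
    (fun z hz => (a1 _ (by simpa using hz)).le) 0 (mem_closedBall_self hδ.le)
  simp only [add_zero] at this
  linarith

end Pool.Agent.H.MP_af15e5_an
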