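import Pool.Agent.H.MP_af15e5_an.A

set_option autoImplicit false

namespace Pool.Agent.H.MP_af15e5_an
open Metric Set Filter Topology Pool.Agent.H.MP_c40ba2_an Function

lemma E_0 {t : ℂ} (ht : ‖t‖ < 1) : E 0 t = 1 := by
  ext s; rw [E_app _ ht]; simp

lemma E_1 {t : ℂ} (ht : ‖t‖ < 1) : E 1 t = 1 + t • Z := by
  ext s; rw [E_app _ ht]; simp

lemma E_neg (e : ℂ) {t : ℂ} (ht : ‖t‖ < 1) : E e t * E (-e) t = 1 := by
  rw [E_mul _ _ ht, add_neg_cancel, E_0 ht]

lemma annul (Λ : AA →L[ℂ] ℂ) (k : AA) (h : ∀ n, Λ (k * Z ^ n) = 0) (e : ℂ) {t : ℂ}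
    (ht : ‖t‖ < 1) (n : ℕ) : Λ (k * E e t * Z ^ n) = 0 := by
  have a := ((G_sum (pw_diff e 1 (by simp)) ht).mul_left (k * Z ^ n)).mapL Λ
  have b : (fun m => Λ (k * Z ^ n * (tc (fun u => (1 + 1 * u) ^ e) m * t ^ m) • Z ^ m)) =
      fun _ => 0 := by
    funext m
    rw [mul_smul_comm, map_smul, mul_assoc k, ← pow_add, h, smul_zero]
  rw [b] at a
  rw [mul_right_comm]
  exact a.unique hasSum_zero

lemma pfa {p1 p2 q : ℂ} {r : ℝ} (hr : 0 < r) (h1 : ‖p1‖ = r) (h2 : ‖p2‖ = r) (h3 : ‖q‖ = r)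
    (l : ℝ) : ∃ w : ℂ, ‖w‖ = r ∧ (p1 - q) * (p1 - w) * p2 = l * ((p2 - q) * (p2 - w) * p1) := by
  have c : ∀ p : ℂ, ‖p‖ = r → (starRingEnd ℂ) p = (r:ℂ) ^ 2 / p := fun p hp => by
    have : p ≠ 0 := by rintro rfl; simp at hp; linarith
    rw [eq_div_iff this, Complex.conj_mul', hp]
  have n1 : p1 ≠ 0 := by rintro rfl; simp at h1; linarith
  have n2 : p2 ≠ 0 := by rintro rfl; simp at h2; linarith
  have n3 : q ≠ 0 := by rintro rfl; simp at h3; linarith
  set A : ℂ := l * p1 * (p2 - q) - p2 * (p1 - q) with hA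
  set B : ℂ := l * (p2 - q) - (p1 - q) with hB
  have e : (starRingEnd ℂ) B * (q * p1 * p2) = -((r:ℂ) ^ 2 * A) := by
    simp only [hA, hB, map_sub, map_mul, Complex.conj_ofReal, c _ h1, c _ h2, c _ h3]
    field_simp
    ring
  have en : ‖B‖ * r = ‖A‖ := by
    have := congrArg norm e
    simp only [norm_mul, norm_neg, norm_pow, Complex.norm_conj, h1, h2, h3, Complex.norm_real,
      Real.norm_of_nonneg hr.le] at this
    refine mul_left_cancel₀ (pow_pos hr 2).ne' ?_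
    linarith
  by_cases hA0 : A = 0
  · have hB0 : B = 0 := by
      rw [hA0, norm_zero, mul_eq_zero, norm_eq_zero] at en
      exact en.resolve_right hr.ne'
    exact ⟨q, h3, by linear_combination p1 * p2 * (hB0.symm.trans hB) - q * (hA0.symm.trans hA)⟩
  · refine ⟨p1 * p2 * B / A, ?_, ?_⟩
    · rw [norm_div, norm_mul, norm_mul, h1, h2, div_eq_iff (norm_ne_zero_iff.mpr hA0), ← en]
      ring
    · have : p1 * p2 * B / A * A = p1 * p2 * B := div_mul_cancel₀ _ hA0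
      generalize p1 * p2 * B / A = w at this
      rw [hA, hB] at this
      linear_combination this

lemma pfb {p1 p2 q w : ℂ} (h1 : ‖p1‖ < 1) (h2 : ‖p2‖ < 1) (h3 : ‖q‖ < 1) (h4 : ‖w‖ < 1) :
    (p1 * p2 * (p1 - p2)) • (E (-1) p1 * E 1 w * E 1 q * E (-1) p2) =
      (q * w * (p1 - p2)) • (1 : AA) + ((p1 - q) * (p1 - w) * p2) • E (-1) p1
        - ((p2 - q) * (p2 - w) * p1) • E (-1) p2 := by
  ext s
  have a1 := Complex.slitPlane_ne_zero (slit h1 s)
  have a2 := Complex.slitPlane_ne_zero (slit h2 s)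
  simp only [ContinuousMap.smul_apply, ContinuousMap.mul_apply, ContinuousMap.add_apply,
    ContinuousMap.sub_apply, ContinuousMap.one_apply, E_app _ h1, E_app _ h2, E_app _ h3,
    E_app _ h4, Complex.cpow_one, Complex.cpow_neg_one, smul_eq_mul]
  field_simp
  ring

variable {ι : Type} [Fintype ι] [DecidableEq ι]

noncomputable def K (e : ι → ℝ) (t : ι → ℂ) : AA := ∏ j, E (e j) (t j)

lemma K_upd (e : ι → ℝ) (t : ι → ℂ) (j : ι) (h : ‖t j‖ < 1) (s : ℂ) :
    K e (update t j s) = K e t * E (-(e j)) (t j) * E (e j) s := by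
  unfold K
  rw [← Finset.prod_erase_mul _ _ (Finset.mem_univ j),
    ← Finset.prod_erase_mul _ (fun j => E (e j) (t j)) (Finset.mem_univ j), update_self,
    mul_assoc _ (E (e j) (t j)) (E _ _), E_neg _ h, mul_one]
  congr 1
  exact Finset.prod_congr rfl fun i hi => by rw [update_of_ne (Finset.ne_of_mem_erase hi)]

omit [DecidableEq ι] in
lemma K_cont (e : ι → ℝ) (t : ι → ℂ) (h : ∀ j, ‖t j‖ < 1) : ContinuousAt (K e) t :=
  tendsto_finset_prod _ fun j _ => ContinuousAt.comp (f := fun t : ι → ℂ => t j)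
    ((E_diff (e j)).continuousOn.continuousAt
    (isOpen_ball.mem_nhds (mem_ball_zero_iff.mpr (h j)))) (continuous_apply j).continuousAt

omit [DecidableEq ι] in
lemma K_zero (e : ι → ℝ) : K e 0 = 1 := by simp [K, E_zero]

structure Ctx (Λ : AA →L[ℂ] ℂ) (e : ι → ℝ) (r : ℝ) (y : ι) : Prop where
  r0 : 0 < r
  r1 : r < 1
  free : ∀ t : ι → ℂ, (∀ j, ‖t j‖ < r) → Λ (K e t) ≠ 0
  ey : e y = -1

def Zr (Λ : AA →L[ℂ] ℂ) (e : ι → ℝ) (r : ℝ) (t : ι → ℂ) : Prop :=
  (∀ j, ‖t j‖ ≤ r) ∧ Λ (K e t) = 0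

omit [Fintype ι] in
lemma upd_le {t : ι → ℂ} {r : ℝ} (h : ∀ j, ‖t j‖ ≤ r) (j : ι) {s : ℂ} (hs : ‖s‖ ≤ r) (i : ι) :
    ‖update t j s i‖ ≤ r := by
  by_cases hi : i = j
  · rwa [hi, update_self]
  · rw [update_of_ne hi]; exact h i

variable {Λ : AA →L[ℂ] ℂ} {e : ι → ℝ} {r : ℝ} {y : ι}

lemma hurK (C : Ctx Λ e r y) {t : ι → ℂ} (ht : Zr Λ e r t) {j : ι} (hj : ‖t j‖ < r) (s : ℂ)
    (hs : ‖s‖ < 1) : Λ (K e (update t j s)) = 0 := by
  have sc : ∀ τ : ℝ, 0 < τ → ∀ i, ‖(τ:ℂ) * t i‖ = τ * ‖t i‖ := fun τ hτ i => by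
    rw [norm_mul, Complex.norm_real, Real.norm_of_nonneg hτ.le]
  have := hur (g := fun τ s => Λ (K e (update (fun i => (τ:ℂ) * t i) j s))) C.r1.le
    (fun z hz => ?_) (fun τ hτ => ?_) (fun τ hτ s hs => C.free _ fun i => ?_)
    (mem_ball_zero_iff.mpr hj) (by simpa using ht.2) s (mem_ball_zero_iff.mpr hs)
  · simpa using this
  · refine Λ.continuous.continuousAt.comp (ContinuousAt.comp_of_eq (K_cont e _ fun i => ?_)
      (f := fun q : ℝ × ℂ => update (fun i => (q.1:ℂ) * t i) j q.2)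
      (Continuous.update (by fun_prop) j (by fun_prop)).continuousAt rfl)
    by_cases hi : i = j
    · simpa [hi] using hz
    · simpa [update_of_ne hi] using (ht.1 i).trans_lt C.r1
  · have : ‖(fun i => (τ:ℂ) * t i) j‖ < 1 := by
      simp only [sc τ hτ.1]
      nlinarith [hτ.1, hτ.2, norm_nonneg (t j), C.r1]
    simp only [K_upd e (fun i => (τ:ℂ) * t i) j this]
    exact LE_diff Λ _ _
  · by_cases hi : i = j
    · simpa [hi] using hs
    · rw [update_of_ne hi, sc τ hτ.1]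
      nlinarith [hτ.1, hτ.2, norm_nonneg (t i), C.r0, ht.1 i]

lemma yslot (C : Ctx Λ e r y) {t : ι → ℂ} (ht : Zr Λ e r t) : ‖t y‖ = r := by
  by_contra hne
  have hy := lt_of_le_of_ne (ht.1 y) hne
  have h1 : ∀ j, ‖t j‖ < 1 := fun j => (ht.1 j).trans_lt C.r1
  have a : ∀ n, Λ (K e t * E (-(e y)) (t y) * Z ^ n) = 0 := fun n => by
    have b := LE_iter Λ (K e t * E (-(e y)) (t y)) (e y) n (t := 0) (by simp)
    have c : (fun u => Λ (K e t * E (-(e y)) (t y) * E (e y) u)) =ᶠ[𝓝 0] fun _ => 0 := by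
      filter_upwards [ball_mem_nhds (0:ℂ) one_pos] with u hu
      rw [← K_upd e t y (h1 y)]
      exact hurK C ht hy u (mem_ball_zero_iff.mp hu)
    rw [c.iteratedDeriv_eq, E_zero, mul_one] at b
    have d0 : d (e y) n ≠ 0 := by
      have := d_low (e y) C.ey.le n
      exact norm_pos_iff.mp (lt_of_lt_of_le (by positivity) this)
    have : iteratedDeriv n (fun _ : ℂ => (0:ℂ)) 0 = 0 := by simp
    rw [this] at b
    exact (mul_eq_zero.mp b.symm).resolve_left d0
  have a2 : ∀ S : Finset ι, ∀ n,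
      Λ (K e t * E (-(e y)) (t y) * E (e y) (t y) * (∏ j ∈ S, E (-(e j)) (t j)) * Z ^ n) = 0 := by
    intro S
    induction S using Finset.induction_on with
    | empty => simpa using annul Λ _ a (e y) (h1 y)
    | insert j S hj ih =>
      intro n
      rw [Finset.prod_insert hj, mul_comm (E _ (t j)), ← mul_assoc]
      exact annul Λ _ ih _ (h1 j) n
  have a3 := a2 Finset.univ 0
  rw [mul_assoc (K e t), mul_comm (E _ (t y)), E_neg _ (h1 y), mul_one, K,
    ← Finset.prod_mul_distrib, Finset.prod_congr rfl fun j _ => E_neg _ (h1 j)] at a3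
  exact C.free 0 (fun j => by simpa using C.r0) (by simpa [K_zero] using a3)

lemma xslot (C : Ctx Λ e r y) {t : ι → ℂ} (ht : Zr Λ e r t) {i : ι} (hi : e i = 1) :
    ‖t i‖ = r := by
  by_contra hne
  have hx := lt_of_le_of_ne (ht.1 i) hne
  have h1 : ∀ j, ‖t j‖ < 1 := fun j => (ht.1 j).trans_lt C.r1
  have hiy : y ≠ i := by rintro rfl; linarith [C.ey]
  have a := hurK C ht hx (t y) (h1 y)
  have h0 : ‖(0:ℂ)‖ ≤ r := by simpa using C.r0.le
  have b := yslot C (t := update (update t i 0) y 0) ⟨upd_le (upd_le ht.1 i h0) y h0, by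
    rw [K_upd _ _ y (by rw [update_of_ne hiy]; exact h1 y), update_of_ne hiy, K_upd _ _ i (h1 i)]
    rw [K_upd _ _ i (h1 i)] at a
    simpa [E_zero, hi, C.ey] using a⟩
  simp only [update_self, norm_zero] at b
  linarith [C.r0]

lemma jul (C : Ctx Λ e r y) {t : ι → ℂ} (ht : Zr Λ e r t) {i j : ι} (hi : e i = 1) (hij : i ≠ j)
    (hj : ‖t j‖ = r) : Λ (K e t * E (-1) (t i)) ≠ 0 ∧ ∃ l : ℝ, 0 ≤ l ∧
      e j * Λ (K e t * E (-1) (t j)) = l * Λ (K e t * E (-1) (t i)) ∧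
      (l = 0 → Λ (K e (update t j 0)) = 0) := by
  have h1 : ∀ j, ‖t j‖ < 1 := fun j => (ht.1 j).trans_lt C.r1
  have hx := xslot C ht hi
  set k := K e t * E (-(e j)) (t j) with hk
  have key : ∀ s : ℂ, ‖s‖ ≤ r → Λ (k * E (-1) (t i) * E (e j) s) ≠ 0 ∧
      ‖Λ (k * E (e j) s) / Λ (k * E (-1) (t i) * E (e j) s) - 1‖ ≤ 1 := by
    intro s hs
    set k' := k * E (-1) (t i) * E (e j) s with hk'
    have a : ∀ x : ℂ, ‖x‖ < r → Λ k' + x * Λ (k' * Z) ≠ 0 := fun x hx' h => by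
      have := xslot C (t := update (update t j s) i x) ⟨upd_le (upd_le ht.1 j hs) i hx'.le, by
        rw [K_upd _ _ i (by rw [update_of_ne hij]; exact h1 i), update_of_ne hij,
          K_upd _ _ j (h1 j), hi, ← hk, Complex.ofReal_one, mul_right_comm k, ← hk',
          E_1 (hx'.trans C.r1), mul_add, mul_one, mul_smul_comm, map_add, map_smul]
        exact h⟩ hi
      rw [update_self] at this
      linarith
    have a0 : Λ k' ≠ 0 := by simpa using a 0 (by simpa using C.r0)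
    have b : Λ (k * E (e j) s) = Λ k' + t i * Λ (k' * Z) := by
      rw [← smul_eq_mul (t i), ← map_smul, ← map_add, ← mul_smul_comm, ← mul_one_add, ← E_1 (h1 i), hk',
        mul_right_comm k, mul_assoc _ (E (-1) _), mul_comm (E (-1) _), E_neg _ (h1 i), mul_one]
    refine ⟨a0, ?_⟩
    rw [b, add_div, div_self a0, add_sub_cancel_left, norm_div, norm_mul, hx,
      div_le_one (norm_pos_iff.mpr a0)]
    by_contra hlt
    rw [not_le] at hlt
    have n1 : Λ (k' * Z) ≠ 0 := by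
      intro h
      rw [h, norm_zero, mul_zero] at hlt
      linarith [norm_nonneg (Λ k')]
    refine a (-(Λ k' / Λ (k' * Z))) ?_ (by field_simp; ring)
    rwa [norm_neg, norm_div, div_lt_iff₀ (norm_pos_iff.mpr n1)]
  have e0 : k * E (e j) (t j) = K e t := by
    rw [hk, mul_assoc, mul_comm (E _ _), E_neg _ (h1 j), mul_one]
  have e1 : k * E (-1) (t i) * E (e j) (t j) = K e t * E (-1) (t i) := by
    rw [mul_right_comm, e0]
  have n0 := (key _ hj.le).1
  have sb : ball (0:ℂ) r ⊆ ball 0 1 := ball_subset_ball C.r1.le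
  obtain ⟨l, l0, l1, l2⟩ := julia C.r0 (((LE_diff Λ k (e j)).mono sb).div
    ((LE_diff Λ (k * E (-1) (t i)) (e j)).mono sb)
    fun z hz => (key z (mem_ball_zero_iff.mp hz).le).1) (fun z hz => (key z hz).2) hj
    (by simp only [Pi.div_apply, e0, ht.2, zero_div])
    ((LE_deriv Λ k (e j) (h1 j)).div (LE_deriv Λ (k * E (-1) (t i)) (e j) (h1 j)) n0)
  rw [e1] at n0
  refine ⟨n0, l, l0, ?_, fun h => ?_⟩
  · simp only [e0, e1, ht.2, zero_mul, sub_zero] at l1
    have e2 : t j * Λ (k * Z * E (e j - 1) (t j)) = -Λ (K e t * E (-1) (t j)) := by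
      have : t j • (k * Z * E (e j - 1) (t j)) = K e t - K e t * E (-1) (t j) := by
        have f1 : E 1 (t j) * E (e j - 1) (t j) = E (e j) (t j) := by
          rw [E_mul _ _ (h1 j)]; congr 1; ring
        have f2 : E (e j) (t j) * E (-1) (t j) = E (e j - 1) (t j) := by
          rw [E_mul _ _ (h1 j)]; congr 1
        rw [← e0, mul_assoc k (E _ _), f2, ← f1, E_1 (h1 j), ← smul_mul_assoc, ← mul_smul_comm]
        ring
      rw [← smul_eq_mul (t j), ← map_smul, this, map_sub, ht.2, zero_sub]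
    field_simp at l1
    linear_combination (e j : ℂ) * e2 - l1
  · have := l2 h
    simp only [Pi.div_apply, div_eq_zero_iff] at this
    rw [K_upd _ _ j (h1 j)]
    exact this.resolve_right (key 0 (by simpa using C.r0.le)).1

lemma move (C : Ctx Λ e r y) {t : ι → ℂ} (ht : Zr Λ e r t) {i : ι} (hi : e i = 1) {p : ℂ}
    (hp : ‖p‖ = r) (hne : t i ≠ p) (l : ℝ)
    (hl : Λ (K e t * E (-1) p) = l * Λ (K e t * E (-1) (t i))) :
    ∃ w, Zr Λ e r (update (update t i w) y p) := by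
  have h1 : ∀ j, ‖t j‖ < 1 := fun j => (ht.1 j).trans_lt C.r1
  have hiy : y ≠ i := by rintro rfl; linarith [C.ey]
  have hx := xslot C ht hi
  obtain ⟨w, hw, hw2⟩ := pfa C.r0 hx hp (yslot C ht) l
  refine ⟨w, upd_le (upd_le ht.1 i hw.le) y hp.le, ?_⟩
  have a := congrArg (fun f => Λ (K e t * f))
    (pfb (h1 i) (hp.trans_lt C.r1) (h1 y) (hw.trans_lt C.r1))
  simp only [mul_smul_comm, mul_add, mul_sub (K e t), map_smul, map_add, map_sub, mul_one, ht.2,
    hl, smul_eq_mul] at a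
  have n1 : t i ≠ 0 := by intro h; rw [h, norm_zero] at hx; linarith [C.r0]
  have n2 : p ≠ 0 := by intro h; rw [h, norm_zero] at hp; linarith [C.r0]
  rw [K_upd _ _ y (by rw [update_of_ne hiy]; exact h1 y), update_of_ne hiy, K_upd _ _ i (h1 i),
    hi, C.ey]
  refine (mul_eq_zero.mp (?_ : t i * p * (t i - p) * _ = 0)).resolve_left
    (mul_ne_zero (mul_ne_zero n1 n2) (sub_ne_zero.mpr hne))
  simp only [← mul_assoc] at a
  push_cast
  rw [neg_neg, a]
  linear_combination Λ (K e t * E (-1) (t i)) * hw2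

end Pool.Agent.H.MP_af15e5_an
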