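import Pool.Agent.H.MP_af15e5_an.B

set_option autoImplicit false

namespace Pool.Agent.H.MP_af15e5_an
open Metric Set Filter Topology Pool.Agent.H.MP_c40ba2_an Function

section
variable {ι : Type} [Fintype ι] [DecidableEq ι] {Λ : AA →L[ℂ] ℂ} {e : ι → ℝ} {r : ℝ} {y : ι}

lemma sameu (C : Ctx Λ e r y) {u : ι} (hu : 0 < e u) {t : ι → ℂ} (ht : Zr Λ e r t)
    (htu : ‖t u‖ = r) {i : ι} (hi : e i = 1) (hiu : i ≠ u) : t i = t u := by
  by_contra hne
  have huy : u ≠ y := by rintro rfl; linarith [C.ey]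
  have hiy : i ≠ y := by rintro rfl; linarith [C.ey]
  obtain ⟨-, l, -, l1, -⟩ := jul C ht hi hiu htu
  have hu' : (e u : ℂ) ≠ 0 := by exact_mod_cast hu.ne'
  obtain ⟨w, hw⟩ := move C ht hi htu hne (l / e u) (by
    push_cast
    field_simp
    linear_combination l1)
  set t' := update (update t i w) y (t u) with ht'
  have a1 : t' u = t u := by rw [ht', update_of_ne huy, update_of_ne hiu.symm]
  have a2 : t' y = t u := by rw [ht', update_self]
  obtain ⟨n0, m, m0, m1, -⟩ := jul C hw hi hiu (by rw [a1, htu])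
  obtain ⟨-, k, k0, k1, k2⟩ := jul C hw hi hiy (by rw [a2, htu])
  rw [a1] at m1
  rw [a2, C.ey] at k1
  have : ((m + e u * k : ℝ) : ℂ) * Λ (K e t' * E (-1) (t' i)) = 0 := by
    push_cast at k1 ⊢
    linear_combination -m1 - (e u : ℂ) * k1
  have b : m + e u * k = 0 := by exact_mod_cast (mul_eq_zero.mp this).resolve_right n0
  have c : k = 0 := by nlinarith
  have := yslot C (t := update t' y 0) ⟨upd_le hw.1 y (by simpa using C.r0.le), k2 c⟩
  simp only [update_self, norm_zero] at this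
  linarith [C.r0]

lemma samew (C : Ctx Λ e r y) {w x : ι} (hw : e w ≤ 0) (hwy : w ≠ y) (hx : e x = 1) {t : ι → ℂ}
    (ht : Zr Λ e r t) : ∃ t', Zr Λ e r t' ∧ t' w = t' y := by
  have h1 : ∀ j, ‖t j‖ < 1 := fun j => (ht.1 j).trans_lt C.r1
  have hxw : x ≠ w := by rintro rfl; linarith
  by_cases h : e w = 0 ∨ ‖t w‖ < r
  · refine ⟨update t w (t y), ⟨upd_le ht.1 w (ht.1 y), ?_⟩, by
      rw [update_self, update_of_ne hwy.symm]⟩
    rcases h with h | h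
    · rw [K_upd _ _ _ (h1 w), h, Complex.ofReal_zero, neg_zero, E_0 (h1 w), E_0 (h1 y), mul_one,
        mul_one, ht.2]
    · exact hurK C ht h _ (h1 y)
  rw [not_or, not_lt] at h
  have hr := le_antisymm (ht.1 w) h.2
  obtain ⟨n0, l, l0, l1, -⟩ := jul C ht hx hxw hr
  have hw' : (e w : ℂ) ≠ 0 := by exact_mod_cast h.1
  obtain ⟨v, hv⟩ := move C ht hx hr (fun he => by
    rw [← he] at l1
    have : e w = l := by exact_mod_cast mul_right_cancel₀ n0 l1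
    exact h.1 (by linarith)) (l / e w) (by
    push_cast
    field_simp
    linear_combination l1)
  exact ⟨_, hv, by rw [update_self, update_of_ne hwy, update_of_ne hxw.symm]⟩

lemma mainK {u w x : ι} (hy : e y = -1) (hu : 0 < e u) (hw : e w ≤ 0) (hwy : w ≠ y) (hx : e x = 1)
    (ho : ∀ j, j ≠ y → j ≠ u → j ≠ w → e j = 1)
    (H : ∀ a b : ℂ, ‖a‖ < 1 → ‖a‖ = ‖b‖ → Λ (K e fun j => if j = y ∨ j = w then b else a) ≠ 0)
    (t0 : ι → ℂ) (h0 : ∀ j, ‖t0 j‖ < 1) : Λ (K e t0) ≠ 0 := by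
  intro hz
  have n0 : ‖t0‖ < 1 := (pi_norm_lt_iff one_pos).mpr h0
  have hin : ∀ t : ι → ℂ, ‖t‖ ≤ ‖t0‖ → ∀ j, ‖t j‖ < 1 := fun t ht j =>
    ((norm_le_pi_norm t j).trans ht).trans_lt n0
  have hc : IsCompact (closedBall (0 : ι → ℂ) ‖t0‖ ∩ (fun t => Λ (K e t)) ⁻¹' {0}) :=
    (isCompact_closedBall _ _).of_isClosed_subset (ContinuousOn.preimage_isClosed_of_isClosed
      (fun t ht => (Λ.continuous.continuousAt.comp
        (K_cont e t (hin t (mem_closedBall_zero_iff.mp ht)))).continuousWithinAt)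
      isClosed_closedBall isClosed_singleton) inter_subset_left
  obtain ⟨t, ht, hmin⟩ := hc.exists_isMinOn (f := fun t => ‖t‖)
    ⟨t0, mem_closedBall_zero_iff.mpr le_rfl, hz⟩ (by fun_prop)
  have t1 := mem_closedBall_zero_iff.mp ht.1
  have hr : 0 < ‖t‖ := norm_pos_iff.mpr (by
    rintro rfl
    exact H 0 0 (by simp) rfl (by simpa [← Pi.zero_def] using ht.2))
  have C : Ctx Λ e ‖t‖ y := ⟨hr, t1.trans_lt n0, fun s hs h => by
    have a : ‖s‖ < ‖t‖ := (pi_norm_lt_iff hr).mpr hs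
    have := hmin (a := s) ⟨mem_closedBall_zero_iff.mpr (a.le.trans t1), h⟩
    simp only [mem_setOf_eq] at this
    linarith, hy⟩
  have huy : u ≠ y := by rintro rfl; linarith
  have huw : u ≠ w := by rintro rfl; linarith
  obtain ⟨s, hs, hsw⟩ := samew C hw hwy hx ⟨fun j => norm_le_pi_norm t j, ht.2⟩
  obtain ⟨v, hv, hvw, hvu⟩ : ∃ v, Zr Λ e ‖t‖ v ∧ v w = v y ∧ ‖v u‖ = ‖t‖ := by
    rcases (hs.1 u).eq_or_lt with h | h
    · exact ⟨s, hs, hsw, h⟩
    · exact ⟨update s u (s y), ⟨upd_le hs.1 u (hs.1 y), hurK C hs h _ ((hs.1 y).trans_lt C.r1)⟩,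
        by rw [update_of_ne huw.symm, update_of_ne huy.symm, hsw],
        by rw [update_self]; exact yslot C hs⟩
  refine H (v u) (v y) (hvu.trans_lt C.r1) (hvu.trans (yslot C hv).symm) ?_
  rw [← hv.2]
  congr 2
  funext j
  split_ifs with h
  · rcases h with rfl | rfl
    · rfl
    · exact hvw.symm
  · rw [not_or] at h
    by_cases hj : j = u
    · rw [hj]
    · exact (sameu C hu hv hvu (ho j h.1 hj h.2) hj).symm
end

lemma E_pow (n : ℕ) {t : ℂ} (ht : ‖t‖ < 1) : E 1 t ^ n = E n t := by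
  induction n with
  | zero => simp [E_0 ht]
  | succ n ih => rw [pow_succ, ih, E_mul _ _ ht]; push_cast; rfl

lemma lower (Λ : AA →L[ℂ] ℂ) (α β : ℝ) (hα : 1 ≤ α) (hβ : 1 ≤ β)
    (H : ∀ x y : ℂ, ‖x‖ < 1 → ‖x‖ = ‖y‖ → F Λ α β x y ≠ 0) (x y : ℂ) (hx : ‖x‖ < 1)
    (hy : ‖y‖ < 1) : F Λ (α - 1 : ℝ) β x y ≠ 0 := by
  rcases hα.eq_or_lt with rfl | hα'
  · have := bidisc (F_cont Λ 1 β) (fun y _ => F_dx Λ 1 β y) (fun x _ => F_dy Λ 1 β x) H 0 y
      (by simp) hy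
    simpa [F, E_zero, E_0 hx] using this
  obtain ⟨n, hn⟩ : ∃ n : ℕ, 0 < α - 1 - n := ⟨0, by simpa using hα'⟩
  let e : Fin n ⊕ Fin 4 → ℝ := Sum.elim (fun _ => 1) ![1, α - 1 - n, -1, 1 - β]
  have hK : ∀ a a' b : ℂ, ‖a‖ < 1 → ‖b‖ < 1 → K e (Sum.elim (fun _ => a) ![a', a, b, b]) =
      E 1 a' * E (α - 1 : ℝ) a * E (-β) b := by
    intro a a' b ha hb
    have f1 : E n a * E (α - 1 - n : ℝ) a = E (α - 1 : ℝ) a := by
      rw [E_mul _ _ ha]; congr 1; push_cast; ring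
    have f2 : E (-1 : ℝ) b * E (1 - β : ℝ) b = E (-β) b := by
      rw [E_mul _ _ hb]; congr 1; push_cast; ring
    rw [← f1, ← f2, ← E_pow n ha]
    simp only [K, Fintype.prod_sum_type, Fin.prod_univ_four, e, Sum.elim_inl, Sum.elim_inr,
      Finset.prod_const, Finset.card_univ, Fintype.card_fin, Complex.ofReal_one]
    simp only [Matrix.cons_val_zero, Matrix.cons_val_one, Matrix.cons_val, Complex.ofReal_one]
    ring
  have := mainK (Λ := Λ) (e := e) (y := Sum.inr 2) (u := Sum.inr 1) (w := Sum.inr 3)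
    (x := Sum.inr 0) rfl hn (show 1 - β ≤ 0 by linarith) (by simp) rfl (by
      rintro (j | j) h1 h2 h3
      · rfl
      · fin_cases j <;> simp_all [e]) (fun a b ha hab => by
      have hb : ‖b‖ < 1 := hab ▸ ha
      have : (fun j : Fin n ⊕ Fin 4 => if j = Sum.inr 2 ∨ j = Sum.inr 3 then b else a) =
          Sum.elim (fun _ => a) ![a, a, b, b] := by
        funext j
        rcases j with j | j
        · simp
        · fin_cases j <;> simp
      rw [this, hK a a b ha hb, E_mul _ _ ha]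
      have := H a b ha hab
      simpa [F] using this) (Sum.elim (fun _ => x) ![0, x, y, y]) (by
      rintro (j | j)
      · exact hx
      · fin_cases j <;> simp [hx, hy])
  rw [hK x 0 y hx hy, E_zero, one_mul] at this
  exact this

lemma transl (Λ : AA →L[ℂ] ℂ) (c : ℕ → ℂ) (ρ : ℂ) (hΛ : ∀ n, Λ (Z ^ n) = c n * ρ ^ n) (a b : ℂ)
    {x y : ℂ} (hx : ‖x‖ ≤ 1) (hy : ‖y‖ < 1) : Λ (E a (x * y) * E b (-y)) =
      ∑' n, c n * tc (fun w => (1 + x * w) ^ a * (1 - w) ^ b) n * (y * ρ) ^ n := by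
  have hκ : DifferentiableOn ℂ (fun w : ℂ => (1 + x * w) ^ a * (1 - w) ^ b) (ball 0 1) :=
    (pw_diff _ _ hx).mul (by simpa [sub_eq_add_neg] using pw_diff b (-1) (by simp))
  have hxy : ‖x * y‖ < 1 := by
    rw [norm_mul]; nlinarith [norm_nonneg x, norm_nonneg y]
  have e : E a (x * y) * E b (-y) = G (fun w : ℂ => (1 + x * w) ^ a * (1 - w) ^ b) y := by
    ext s
    rw [ContinuousMap.mul_apply, E_app _ hxy, E_app _ (by rwa [norm_neg]), G_app hκ hy]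
    congr 2 <;> ring
  rw [e, ← ((G_sum hκ hy).mapL Λ).tsum_eq]
  refine tsum_congr fun n => ?_
  rw [map_smul, hΛ, smul_eq_mul, mul_pow]
  ring

theorem final (α β : ℝ) (hα : 1 ≤ α) (hβ : 1 ≤ β) (φ : ℂ → ℂ)
    (hφ : DifferentiableOn ℂ φ (ball 0 1))
    (H : ∀ x : ℂ, ‖x‖ = 1 → ∀ z : ℂ, ‖z‖ < 1 → ∑' n, tc φ n *
      tc (fun w => (1 + x * w) ^ (α:ℂ) * (1 - w) ^ (-(β:ℂ))) n * z ^ n ≠ 0)
    (x : ℂ) (hx : ‖x‖ = 1) (z : ℂ) (hz : ‖z‖ < 1) : ∑' n, tc φ n *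
      tc (fun w => (1 + x * w) ^ ((α:ℂ) - 1) * (1 - w) ^ (-(β:ℂ))) n * z ^ n ≠ 0 := by
  obtain ⟨ρ, hρ1, hρ2⟩ := exists_between hz
  have hρ : 0 < ρ := (norm_nonneg z).trans_lt hρ1
  obtain ⟨Λ, hΛ⟩ := exL (fun n => tc φ n * (ρ:ℂ) ^ n) (by
    simpa [abs_of_pos hρ] using tc_summ hφ hρ.le hρ2)
  have hy : ‖z / ρ‖ < 1 := by
    rwa [norm_div, Complex.norm_real, Real.norm_of_nonneg hρ.le, div_lt_one hρ]
  have hρ' : (ρ:ℂ) ≠ 0 := by exact_mod_cast hρ.ne'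
  have := lower Λ α β hα hβ (fun a b ha hab => ?_) (x * (z / ρ)) (-(z / ρ))
    (by rwa [norm_mul, hx, one_mul]) (by rwa [norm_neg])
  · rw [F, transl Λ _ _ hΛ _ _ hx.le hy, div_mul_cancel₀ _ hρ'] at this
    push_cast at this
    exact this
  have hb : ‖-b‖ < 1 := by rw [norm_neg, ← hab]; exact ha
  obtain ⟨x', h1, h2⟩ : ∃ x' : ℂ, ‖x'‖ = 1 ∧ a = x' * -b := by
    by_cases h : b = 0
    · exact ⟨1, by simp, by simpa [h] using hab⟩
    · exact ⟨-a / b, by rw [norm_div, norm_neg, hab, div_self (norm_ne_zero_iff.mpr h)],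
        by field_simp⟩
  have e := transl Λ _ _ hΛ α (-β) h1.le hb
  rw [neg_neg, ← h2] at e
  rw [F, e]
  refine H x' h1 _ ?_
  rw [norm_mul, Complex.norm_real, Real.norm_of_nonneg hρ.le]
  nlinarith [norm_nonneg (-b)]

end Pool.Agent.H.MP_af15e5_an
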